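import Pool.Agent.H493.SZ.CntX
import Pool.Agent.H493.SZ.TLT
import Pool.Agent.H493.SZ.GRW
import Pool.Agent.H493.SZ.WLP
import Pool.Agent.H493.SZ.COD
import Pool.Agent.H493.SZ.UXD
import Pool.Agent.H493.SZ.BAL
import Pool.Agent.H493.SZ.PIG
import Pool.Agent.H493.SZ.LPG
import Pool.Agent.H493.SZ.BLKC
import Pool.Agent.H493.SZ.FIL
import Pool.Agent.H493.SZ.TOPA
import Pool.Agent.H493.SZ.TOPB
import Pool.Agent.H493.SZ.TOPW
import Pool.Agent.H493.SZ.TOPC
import Pool.Agent.H493.SZ.TOPF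

set_option autoImplicit false

/-!
# The exact relation between entropy and correlation for the zeros of zeta in windows

No hypothesis is made on the zeros of zeta: the zeros are all the nontrivial zeros, counted with multiplicity by
their ordinates.  Let `0 ≤ a_j < b_j < 1`, `j = 1, ..., k`.  For a step `s > 0` and a height `t` let `X_s(t)` be the vector of the
normalised numbers of zeros in the windows `(t + a_j s, t + b_j s]`,

`X_j = (n(t + a_j s, t + b_j s) - (b_j - a_j) s log T / 2π) / (√(log (s log T)) / π)`,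

and let `N` be the Gaussian vector with the covariances
`([a_i = a_j] + [b_i = b_j] - [a_i = b_j] - [b_i = a_j]) / 2`.  Let `ψ` be any continuous function of at most quadratic growth; for
instance `ψ(x) = x_i`, or `ψ(x) = x_i x_j`, the (centred) number of the pairs of ordinates, one in each of the windows `i` and `j`.
How large can the correlation of the sequence `ψ(X_s(t)) - E ψ(N)`, sampled at `t, t + s, t + 2s, ...`, with a function `θ`,
`|θ| ≤ 1`, of given complexity be, if `θ` may depend on the zeros in an arbitrary way?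

Let `ξ = ψ(N) - E ψ(N)` (not almost surely `0`).  For `l > 0` and `-1 < m < 1` let
`gain = E ξ (sinh(lξ) + m cosh(lξ)) / (cosh(lξ) + m sinh(lξ))` and `rate = l gain - E log(cosh(lξ) + m sinh(lξ))`; the pair `(l, m)` is
balanced if `E sinh(lξ) / (cosh(lξ) + m sinh(lξ)) = 0` (if `ξ` is symmetric, `m = 0` is).

1. For every `l > 0` there is `m` such that `(l, m)` is balanced.  The rates of the balanced pairs are exactly the points of the interval
   `(0, R)`, where `R = P(ξ ≠ 0) h(P(ξ > 0) / P(ξ ≠ 0))` and `h` is the binary entropy (`R = log 2` if `ξ` is symmetric without an atom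
   at `0`), and `E|ξ| - R/l ≤ gain < E|ξ|`.
2. Upper bound.  Let `(l, m)` be balanced.  If `θ`, `|θ| ≤ 1`, follows at most `exp(κM)` patterns of length `M` (up to a small
   error `δ`, one large `M` is enough), then `|∫_T^{2T} θ(t) (ψ(X_s(t)) - E ψ(N)) dt| ≤ (gain + (κ - rate)/l + ε) T`; in particular the bound is
   `(gain + ε) T` for `κ = rate`.
3. Lower bound.  For every `η > 0` there is such a function `θ` which follows exactly at most `exp((rate + η) M)` patterns of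
   length `M`, for all large `M`, and `|∫_T^{2T} θ(t) (ψ(X_s(t)) - E ψ(N)) dt| ≥ (gain - ε) T`.

So the curve of the points `(rate, gain)` of the balanced pairs is the exact maximal correlation as a function of the entropy `κ < R`, and
for `κ ≥ R` the maximal correlation is `E|ξ|`, the largest value without any restriction.  The statements are uniform in the step:
for every `ε > 0` there is `K` such that they hold for all `T ≥ K` and all `s` with `K/log T ≤ s ≤ 1/K`.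
-/

open Complex Filter Topology Set MeasureTheory ProbabilityTheory
open scoped NNReal

namespace Pool.Agent.Results.MP_f58427_nt.ExactEntropyCurve

/-- the nontrivial zeros of zeta -/
def zeros : Set ℂ := {s : ℂ | riemannZeta s = 0 ∧ 0 < s.re ∧ s.re < 1}

/-- multiplicity of a zero of zeta -/
noncomputable def mult (s : ℂ) : ℕ := analyticOrderNatAt riemannZeta s

/-- the number of zeros with ordinate in `(u, v]`, with multiplicity -/
noncomputable def count (u v : ℝ) : ℕ := ∑ᶠ z ∈ {z : ℂ | z ∈ zeros ∧ u < z.im ∧ z.im ≤ v}, mult z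

/-- the normalised number of zeros in the window `(t + a s, t + b s]` -/
noncomputable def norm (a b s T t : ℝ) : ℝ :=
  (count (t + a * s) (t + b * s) - (b - a) * s * Real.log T / (2 * Real.pi)) /
    (Real.sqrt (Real.log (s * Real.log T)) / Real.pi)

/-- the vector of the normalised numbers of zeros -/
noncomputable def field {k : ℕ} (a b : Fin k → ℝ) (s T t : ℝ) : EuclideanSpace ℝ (Fin k) :=
  WithLp.toLp 2 fun j => norm (a j) (b j) s T t

open Classical in
/-- the limiting covariances -/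
noncomputable def cov {k : ℕ} (a b : Fin k → ℝ) (i j : Fin k) : ℝ :=
  ((if a i = a j then 1 else 0) + (if b i = b j then 1 else 0) - (if a i = b j then 1 else 0) -
    (if b i = a j then 1 else 0)) / 2

/-- the Gaussian law with these covariances -/
noncomputable def gauss {k : ℕ} (a b : Fin k → ℝ) : Measure (EuclideanSpace ℝ (Fin k)) :=
  multivariateGaussian 0 (Matrix.of (cov a b))

/-- the fluctuation `ψ(X_s(t)) - E ψ(N)` -/
noncomputable def fluct {k : ℕ} (a b : Fin k → ℝ) (ψ : EuclideanSpace ℝ (Fin k) → ℝ) (s T t : ℝ) : ℝ :=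
  ψ (field a b s T t) - ∫ x, ψ x ∂(gauss a b)

/-- `R T s` holds for all large `T` and all scales `s` with `K/log T ≤ s ≤ 1/K` -/
def Mesoscopic (R : ℝ → ℝ → Prop) : Prop :=
  ∃ K : ℝ, 1 ≤ K ∧ ∀ T : ℝ, K ≤ T → ∀ s : ℝ, K ≤ s * Real.log T → s ≤ 1 / K → R T s

/-- outside a set of measure at most `δT`, the values `θ(t), θ(t + s), ..., θ(t + (M-1)s)` are at mean distance at
most `δ` from one of at most `exp(κM)` sequences -/
def Follows (T s : ℝ) (M : ℕ) (κ δ : ℝ) (θ : ℝ → ℂ) : Prop :=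
  ∃ (P : Finset (ℕ → ℂ)) (E : Set ℝ), (P.card : ℝ) ≤ Real.exp (κ * M) ∧ (∀ p ∈ P, ∀ m, ‖p m‖ ≤ 1) ∧
    volume E ≤ ENNReal.ofReal (δ * T) ∧ ∀ t ∈ Icc T (2 * T), t ∉ E →
      ∃ p ∈ P, ∑ m ∈ Finset.range M, ‖θ (t + m * s) - p m‖ ≤ δ * M

/-- `cosh(lx) + m sinh(lx)` -/
noncomputable def den (l m x : ℝ) : ℝ := Real.cosh (l * x) + m * Real.sinh (l * x)

/-- the centred observable: `ψ(x) - E ψ(N)`; `ξ` is its value at `x = N` -/
noncomputable def cent {k : ℕ} (a b : Fin k → ℝ) (ψ : EuclideanSpace ℝ (Fin k) → ℝ) (x : EuclideanSpace ℝ (Fin k)) : ℝ :=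
  ψ x - ∫ y, ψ y ∂(gauss a b)

/-- `(l, m)` is balanced: `l > 0`, `|m| < 1`, `E sinh(lξ) / (cosh(lξ) + m sinh(lξ)) = 0` -/
def Balanced {k : ℕ} (a b : Fin k → ℝ) (ψ : EuclideanSpace ℝ (Fin k) → ℝ) (l m : ℝ) : Prop :=
  0 < l ∧ |m| < 1 ∧ ∫ x, Real.sinh (l * cent a b ψ x) / den l m (cent a b ψ x) ∂(gauss a b) = 0

/-- `E ξ (sinh(lξ) + m cosh(lξ)) / (cosh(lξ) + m sinh(lξ))` -/
noncomputable def gain {k : ℕ} (a b : Fin k → ℝ) (ψ : EuclideanSpace ℝ (Fin k) → ℝ) (l m : ℝ) : ℝ :=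
  ∫ x, cent a b ψ x * ((Real.sinh (l * cent a b ψ x) + m * Real.cosh (l * cent a b ψ x)) / den l m (cent a b ψ x))
    ∂(gauss a b)

/-- `l gain - E log(cosh(lξ) + m sinh(lξ))` -/
noncomputable def rate {k : ℕ} (a b : Fin k → ℝ) (ψ : EuclideanSpace ℝ (Fin k) → ℝ) (l m : ℝ) : ℝ :=
  l * gain a b ψ l m - ∫ x, Real.log (den l m (cent a b ψ x)) ∂(gauss a b)

/-- `P(ξ ≠ 0) h(P(ξ > 0) / P(ξ ≠ 0))`, where `h` is the binary entropy -/
noncomputable def maxRate {k : ℕ} (a b : Fin k → ℝ) (ψ : EuclideanSpace ℝ (Fin k) → ℝ) : ℝ :=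
  (gauss a b).real {x | cent a b ψ x ≠ 0} *
    Real.binEntropy ((gauss a b).real {x | 0 < cent a b ψ x} / (gauss a b).real {x | cent a b ψ x ≠ 0})

open Pool.Agent.H203.ME Pool.Agent.H493.EN Pool.Agent.H493.SZ

lemma wd_eq {a b s : ℝ} (hab : a ≤ b) (hs : 0 < s) (σ x : ℝ) :
    wd a b s σ x = (Ioc (a * s) (b * s)).indicator (fun _ => (1 : ℝ)) x / σ := by
  have h1 : a * s ≤ b * s := mul_le_mul_of_nonneg_right hab hs.le
  rw [wd_apply]
  congr 1
  by_cases h2 : a * s < x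
  · rw [indicator_of_mem (show x ∈ Ioi (a * s) from h2)]
    by_cases h3 : b * s < x
    · rw [indicator_of_mem (show x ∈ Ioi (b * s) from h3), indicator_of_notMem (fun h => not_lt.2 h.2 h3), sub_self]
    · rw [indicator_of_notMem (show x ∉ Ioi (b * s) from h3), indicator_of_mem (show x ∈ Ioc (a * s) (b * s) from
        ⟨h2, not_lt.1 h3⟩), sub_zero]
  · rw [indicator_of_notMem (show x ∉ Ioi (a * s) from h2), indicator_of_notMem (show x ∉ Ioi (b * s) from
      fun h => h2 (lt_of_le_of_lt h1 h)), indicator_of_notMem (fun h => h2 h.1), sub_zero]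

lemma norm_eq {a b s : ℝ} (hab : a ≤ b) (hs : 0 < s) (ha : |a * s| ≤ 1 / 2) (hb : |b * s| ≤ 1 / 2) {T t : ℝ}
    (ht : 10 ≤ t) : XF (wd a b s (sgm s T)) T t = norm a b s T t := by
  have h1 : a * s ≤ b * s := mul_le_mul_of_nonneg_right hab hs.le
  rw [wd, STCL.XF_eq' (STCL.F0_v wd_sum (wd_small ha hb)) (U1 := t - 2) (U2 := t + 2) (by linarith) (by linarith)
    (by linarith)]
  have e1 : ∀ x, F0 ![a, b] ![1, -1] s (sgm s T) x = (Ioc (a * s) (b * s)).indicator (fun _ => (1 : ℝ)) x / sgm s T :=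
    fun x => wd_eq hab hs _ x
  simp_rw [e1]
  rw [integral_div, integral_indicator_const _ measurableSet_Ioc, smul_eq_mul, mul_one]
  have e2 : (volume : Measure ℝ).real (Ioc (a * s) (b * s)) = (b - a) * s := by
    rw [Measure.real, Real.volume_Ioc, ENNReal.toReal_ofReal (by linarith)]
    ring
  rw [e2]
  have hZ : ∀ z : ℂ, z ∈ H370.Zf riemannZeta (t - 2) (t + 2) ↔ z ∈ H370.zset riemannZeta (t - 2) (t + 2) := fun z =>
    H370.mem_Zf H370.good_zeta (by linarith)
  have e3 : (count (t + a * s) (t + b * s) : ℝ) =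
      ∑ z ∈ H370.Zf riemannZeta (t - 2) (t + 2), (mz z : ℝ) * (Ioc (a * s) (b * s)).indicator (fun _ => (1 : ℝ)) (z.im - t) := by
    have e4 : count (t + a * s) (t + b * s) = ∑ z ∈ H370.Zf riemannZeta (t - 2) (t + 2),
        (if t + a * s < z.im ∧ z.im ≤ t + b * s then mult z else 0) := by
      unfold count
      rw [← Finset.sum_filter]
      apply finsum_mem_eq_sum_of_inter_support_eq
      ext z
      simp only [mem_inter_iff, Function.mem_support, Finset.coe_filter, Set.mem_ofPred_eq, hZ]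
      constructor
      · rintro ⟨⟨⟨ha', hb', hc'⟩, hd'⟩, he'⟩
        refine ⟨⟨⟨hb', hc', ?_, ?_, ha'⟩, hd'⟩, he'⟩
        · have := (abs_le.1 ha).1
          linarith [hd'.1]
        · have := (abs_le.1 hb).2
          linarith [hd'.2]
      · rintro ⟨⟨⟨ha', hb', hc', hd', he'⟩, hf'⟩, hg'⟩
        exact ⟨⟨⟨he', ha', hb'⟩, hf'⟩, hg'⟩
    rw [e4]
    push_cast
    refine Finset.sum_congr rfl fun z _ => ?_
    by_cases h : t + a * s < z.im ∧ z.im ≤ t + b * s
    · rw [if_pos h, indicator_of_mem (show z.im - t ∈ Ioc (a * s) (b * s) from ⟨by linarith [h.1], by linarith [h.2]⟩),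
        mul_one]
      rfl
    · rw [if_neg h, indicator_of_notMem (fun h2 => h ⟨by linarith [h2.1], by linarith [h2.2]⟩), mul_zero]
  unfold norm
  rw [e3, sub_div, Finset.sum_div]
  congr 1
  · exact Finset.sum_congr rfl fun z _ => by rw [mul_div_assoc]; rfl
  · unfold sgm
    ring

lemma fluct_eq {k : ℕ} {a b : Fin k → ℝ} (hab : ∀ j, a j ≤ b j) (ψ : EuclideanSpace ℝ (Fin k) → ℝ) {s : ℝ}
    (hs : 0 < s) (ha : ∀ j, |a j * s| ≤ 1 / 2) (hb : ∀ j, |b j * s| ≤ 1 / 2) (T : ℝ) {t : ℝ} (ht : 10 ≤ t) :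
    Yg (Xc a b) (Matrix.of (cw2 a b)) ψ s T t = fluct a b ψ s T t := by
  have h1 : Xc a b s T t = field a b s T t := by
    unfold Xc field
    congr 1
    funext j
    exact norm_eq (hab j) hs (ha j) (hb j) ht
  unfold Yg fluct
  rw [h1]
  rfl

/-- the constant which makes the end points small -/
noncomputable def K₀ {k : ℕ} (a b : Fin k → ℝ) : ℝ := 10 + 2 * ∑ j, |a j| + 2 * ∑ j, |b j|

lemma K₀_le {k : ℕ} (a b : Fin k → ℝ) {K s : ℝ} (hK : K₀ a b ≤ K) (hs0 : 0 < s) (hs : s ≤ 1 / K) :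
    (∀ j, |a j * s| ≤ 1 / 2) ∧ ∀ j, |b j * s| ≤ 1 / 2 := by
  have hA : 0 ≤ ∑ j, |a j| := Finset.sum_nonneg fun j _ => abs_nonneg _
  have hB : 0 ≤ ∑ j, |b j| := Finset.sum_nonneg fun j _ => abs_nonneg _
  unfold K₀ at hK
  have hKp : 0 < K := by linarith
  rw [le_div_iff₀ hKp] at hs
  have h1 : ∀ x : ℝ, 2 * |x| ≤ K → |x * s| ≤ 1 / 2 := by
    intro x hx
    rw [abs_mul, abs_of_pos hs0]
    nlinarith
  refine ⟨fun j => h1 _ ?_, fun j => h1 _ ?_⟩
  · have := Finset.single_le_sum (f := fun j => |a j|) (fun j _ => abs_nonneg _) (Finset.mem_univ j)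
    linarith
  · have := Finset.single_le_sum (f := fun j => |b j|) (fun j _ => abs_nonneg _) (Finset.mem_univ j)
    linarith

lemma pos_of {K T s : ℝ} (hK : 1 ≤ K) (hT : K ≤ T) (h : K ≤ s * Real.log T) : 0 < s := by
  by_contra h1
  push Not at h1
  have h2 : 0 ≤ Real.log T := Real.log_nonneg (hK.trans hT)
  nlinarith

/-- enlarging the constant -/
lemma enlarge {k : ℕ} (a b : Fin k → ℝ) (hab : ∀ j, a j ≤ b j) {ψ : EuclideanSpace ℝ (Fin k) → ℝ} {K : ℝ}
    (hK : 1 ≤ K) {T s : ℝ} (hT : max K (K₀ a b) ≤ T) (h1 : max K (K₀ a b) ≤ s * Real.log T)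
    (h2 : s ≤ 1 / max K (K₀ a b)) : K ≤ T ∧ K ≤ s * Real.log T ∧ s ≤ 1 / K ∧ 0 < s ∧
      ∀ t, T ≤ t → Yg (Xc a b) (Matrix.of (cw2 a b)) ψ s T t = fluct a b ψ s T t := by
  have hs := pos_of (hK.trans (le_max_left _ _)) hT h1
  obtain ⟨h3, h4⟩ := K₀_le a b (le_max_right K (K₀ a b)) hs h2
  have hA : 0 ≤ ∑ j, |a j| := Finset.sum_nonneg fun j _ => abs_nonneg _
  have hB : 0 ≤ ∑ j, |b j| := Finset.sum_nonneg fun j _ => abs_nonneg _
  have hT2 : K₀ a b ≤ T := (le_max_right _ _).trans hT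
  unfold K₀ at hT2
  exact ⟨(le_max_left _ _).trans hT, (le_max_left _ _).trans h1,
    h2.trans (one_div_le_one_div_of_le (by linarith) (le_max_left _ _)), hs,
    fun t ht => fluct_eq hab ψ hs h3 h4 T (by linarith)⟩

/-- **The exact relation between entropy and correlation for the zeros of zeta in windows.** -/
theorem result {k : ℕ} (hk : 0 < k) (a b : Fin k → ℝ) (ha : ∀ j, 0 ≤ a j) (hab : ∀ j, a j < b j) (hb : ∀ j, b j < 1)
    (ψ : EuclideanSpace ℝ (Fin k) → ℝ) (C : ℝ) (hψ : Continuous ψ) (hC : ∀ x, |ψ x| ≤ C * (1 + ‖x‖ ^ 2))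
    (hne : 0 < ∫ x, |cent a b ψ x| ∂(gauss a b)) :
    -- 1. the curve
    (∀ l : ℝ, 0 < l → ∃ m : ℝ, Balanced a b ψ l m) ∧
    (∀ κ : ℝ, (∃ l m : ℝ, Balanced a b ψ l m ∧ rate a b ψ l m = κ) ↔ 0 < κ ∧ κ < maxRate a b ψ) ∧
    (∀ l m : ℝ, Balanced a b ψ l m →
      ∫ x, |cent a b ψ x| ∂(gauss a b) - maxRate a b ψ / l ≤ gain a b ψ l m ∧
      gain a b ψ l m < ∫ x, |cent a b ψ x| ∂(gauss a b)) ∧
    -- 2. upper bound
    (∀ l m κ ε : ℝ, Balanced a b ψ l m → 0 ≤ κ → 0 < ε → ∃ (δ : ℝ) (M₀ : ℕ), 0 < δ ∧ ∀ M : ℕ, M₀ ≤ M → Mesoscopic fun T s =>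
      ∀ θ : ℝ → ℂ, Measurable θ → (∀ t, ‖θ t‖ ≤ 1) → Follows T s M κ δ θ →
        ‖∫ t in T..(2 * T), θ t * (fluct a b ψ s T t : ℂ)‖ ≤
          (gain a b ψ l m + (κ - rate a b ψ l m) / l + ε) * T) ∧
    -- 3. lower bound
    (∀ l m η ε : ℝ, Balanced a b ψ l m → 0 < η → 0 < ε → ∃ M₀ : ℕ, Mesoscopic fun T s =>
      ∃ θ : ℝ → ℂ, Measurable θ ∧ (∀ t, ‖θ t‖ ≤ 1) ∧ (∀ M : ℕ, M₀ ≤ M → Follows T s M (rate a b ψ l m + η) 0 θ) ∧
        (gain a b ψ l m - ε) * T ≤ ‖∫ t in T..(2 * T), θ t * (fluct a b ψ s T t : ℂ)‖) := by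
  have hab' : ∀ j, a j ≤ b j := fun j => (hab j).le
  have hpr : IsProbabilityMeasure (gauss a b) := by unfold gauss; infer_instance
  have hψi : Integrable ψ (gauss a b) := quad_intg _ hψ hC
  have hci : Integrable (cent a b ψ) (gauss a b) := hψi.sub (integrable_const _)
  have hcc : Continuous (cent a b ψ) := hψ.sub continuous_const
  have hmean : ∫ x, cent a b ψ x ∂(gauss a b) = 0 := by
    unfold cent
    rw [integral_sub hψi (integrable_const _)]
    simp
  have hcongr : ∀ (θ : ℝ → ℂ) (T s : ℝ), 0 ≤ T →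
      (∀ t, T ≤ t → Yg (Xc a b) (Matrix.of (cw2 a b)) ψ s T t = fluct a b ψ s T t) →
      ∫ t in T..(2 * T), θ t * (Yg (Xc a b) (Matrix.of (cw2 a b)) ψ s T t : ℂ) =
        ∫ t in T..(2 * T), θ t * (fluct a b ψ s T t : ℂ) := by
    intro θ T s hT h
    refine intervalIntegral.integral_congr fun t ht => ?_
    rw [uIcc_of_le (by linarith)] at ht
    rw [h t ht.1]
  -- the law of `ξ`
  set ν : Measure ℝ := (gauss a b).map (cent a b ψ) with hν
  have hcm : AEMeasurable (cent a b ψ) (gauss a b) := hcc.aemeasurable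
  have hνp : IsProbabilityMeasure ν := Measure.isProbabilityMeasure_map hcm
  have hν1 : Integrable (fun x : ℝ => x) ν := (integrable_map_measure (by fun_prop) hcm).2 hci
  have hν2 : ∫ x, x ∂ν = 0 := by
    rw [hν, integral_map hcm (by fun_prop)]
    exact hmean
  have hν3 : 0 < ∫ x, |x| ∂ν := by
    rw [hν, integral_map hcm (by fun_prop)]
    exact hne
  have hDm : ∀ l m : ℝ, Measurable (Dn l m) := fun l m => (Dn_cont l m).measurable
  have hsm : ∀ l : ℝ, Measurable fun x : ℝ => Real.sinh (l * x) := fun l => (Real.continuous_sinh.comp (by fun_prop)).measurable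
  have hchm : ∀ l : ℝ, Measurable fun x : ℝ => Real.cosh (l * x) := fun l => (Real.continuous_cosh.comp (by fun_prop)).measurable
  have htm : ∀ l m : ℝ, Measurable (tn l m) := fun l m => by
    unfold tn
    exact ((hsm l).add ((hchm l).const_mul m)).div (hDm l m)
  have e1 : ∀ l m : ℝ, ∫ x, Real.sinh (l * x) / Dn l m x ∂ν =
      ∫ x, Real.sinh (l * cent a b ψ x) / den l m (cent a b ψ x) ∂(gauss a b) := by
    intro l m
    have hm1 : Measurable fun x : ℝ => Real.sinh (l * x) / Dn l m x := (hsm l).div (hDm l m)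
    rw [hν, integral_map hcm hm1.aestronglyMeasurable]
    rfl
  have e2 : ∀ l m : ℝ, ∫ x, x * tn l m x ∂ν = gain a b ψ l m := by
    intro l m
    have hm1 : Measurable fun x : ℝ => x * tn l m x := measurable_id.mul (htm l m)
    rw [hν, integral_map hcm hm1.aestronglyMeasurable]
    rfl
  have e3 : ∀ l m : ℝ, ∫ x, Real.log (Dn l m x) ∂ν = ∫ x, Real.log (den l m (cent a b ψ x)) ∂(gauss a b) := by
    intro l m
    have hm1 : Measurable fun x : ℝ => Real.log (Dn l m x) := (hDm l m).log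
    rw [hν, integral_map hcm hm1.aestronglyMeasurable]
    rfl
  have e4 : ∀ l m : ℝ, l * (∫ x, x * tn l m x ∂ν) - (∫ x, Real.log (Dn l m x) ∂ν) = rate a b ψ l m := by
    intro l m
    rw [e2, e3]
    rfl
  have e5 : ∫ x, |x| ∂ν = ∫ x, |cent a b ψ x| ∂(gauss a b) := by
    rw [hν, integral_map hcm (by fun_prop)]
  have e6 : topR ν = maxRate a b ψ := by
    have e7 : ν.real {0}ᶜ = (gauss a b).real {x | cent a b ψ x ≠ 0} := by
      rw [Measure.real, hν, Measure.map_apply_of_aemeasurable hcm (measurableSet_singleton 0).compl]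
      rfl
    have e8 : ν.real (Ioi 0) = (gauss a b).real {x | 0 < cent a b ψ x} := by
      rw [Measure.real, hν, Measure.map_apply_of_aemeasurable hcm measurableSet_Ioi]
      rfl
    unfold topR maxRate
    rw [e7, e8]
  have htop := top_final t_TOPA (t_TOPC t_LPG t_TOPB (t_TOPW t_LPG t_TOPA)) ν hν1 hν2 hν3
  refine ⟨?_, ?_, ?_, ?_, ?_⟩
  · intro l hl
    obtain ⟨m, hm, h1⟩ := t_BAL ν hν1 hν2 hν3 l hl
    rw [e1] at h1
    exact ⟨m, hl, hm, h1⟩
  · intro κ
    have h1 := htop.1 κ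
    rw [e6] at h1
    rw [← h1]
    unfold Balanced
    simp only [← e4, ← e1]
  · rintro l m ⟨hl, hm, h1⟩
    rw [← e1] at h1
    have h2 := htop.2 l m hl hm h1
    rw [e2, e5, e6] at h2
    exact h2
  · rintro l m κ ε ⟨hl, hm, hbal⟩ hκ hε
    obtain ⟨δ, M₀, hδ, h0⟩ := cnt_up ha hab hb t_UXD t_PIG t_LPG hk hψ hC hκ hl hm hε hbal
    refine ⟨δ, M₀, hδ, fun M hM => ?_⟩
    obtain ⟨K, hK, h1⟩ := h0 M hM
    refine ⟨max K (K₀ a b), hK.trans (le_max_left _ _), fun T hT s hs1 hs2 θ hθ hθ1 hθ2 => ?_⟩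
    obtain ⟨k1, k2, k3, k4, k5⟩ := enlarge a b hab' (ψ := ψ) hK hT hs1 hs2
    have h2 := h1 T k1 s k2 k3 θ hθ hθ1 hθ2
    rw [hcongr θ T s (by linarith) k5] at h2
    refine h2.trans (le_of_eq ?_)
    congr 1
    unfold rate
    have e5 : ∫ x, Real.log (Dn l m (ψ x - ∫ y, ψ y ∂(multivariateGaussian 0 (Matrix.of (cw2 a b))))) ∂(multivariateGaussian 0
          (Matrix.of (cw2 a b))) = ∫ x, Real.log (den l m (cent a b ψ x)) ∂(gauss a b) := rfl
    rw [e5]
    field_simp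
    ring
  · rintro l m η ε ⟨hl, hm, _⟩ hη hε
    obtain ⟨M₀, K, hK, h1⟩ := cnt_low ha hab hb t_BLKC (t_COD t_TLT t_GRW t_WLP) t_PIG hk hψ hC hl hm hη hε
    refine ⟨M₀, max K (K₀ a b), hK.trans (le_max_left _ _), fun T hT s hs1 hs2 => ?_⟩
    obtain ⟨k1, k2, k3, k4, k5⟩ := enlarge a b hab' (ψ := ψ) hK hT hs1 hs2
    obtain ⟨θ, hθ, hθ1, hθ2, hθ3⟩ := h1 T k1 s k2 k3
    refine ⟨θ, hθ, hθ1, hθ2, ?_⟩
    rw [hcongr θ T s (by linarith) k5] at hθ3
    exact hθ3

end Pool.Agent.Results.MP_f58427_nt.ExactEntropyCurve
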