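import Pool.Agent.H203.ME.ALL2

set_option autoImplicit false

/-!
# The zeros of zeta on all mesoscopic scales form a Gaussian field (unconditional)

No hypothesis on the zeros is made: `γ` runs over the ordinates of all the nontrivial zeros, with multiplicity.
The height `t` is uniform in `[T, 2T]`; the zeros near `t` are observed through test functions `f_j` of class `C²` with
compact support at scales `h_j = h_j(T)` with `h_j → 0` and `h_j log T → ∞` (all the scales between the mean spacing
and `1`), two different scales being separated.  The centred sums converge jointly in law to the Gaussian vector with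
the covariance `(1/2π²) ∫_0^∞ ξ Re (f̂_i conj f̂_j) dξ` for equal scales and `0` for different scales.
-/

open Complex Filter Topology Set MeasureTheory ProbabilityTheory
open scoped BoundedContinuousFunction

namespace Pool.Agent.Results.MP_f58427_nt.MesoscopicGaussianField

/-- the nontrivial zeros of zeta -/
def zeros : Set ℂ := {s : ℂ | riemannZeta s = 0 ∧ 0 < s.re ∧ s.re < 1}

/-- multiplicity of a zero of zeta -/
noncomputable def mult (s : ℂ) : ℕ := analyticOrderNatAt riemannZeta s

/-- the linear statistic `∑_γ f((γ - t)/h)`, centred by the mean density `log T / 2π` -/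
noncomputable def lin (f : ℝ → ℝ) (h T t : ℝ) : ℝ :=
  (∑ᶠ s ∈ zeros, (mult s : ℝ) * f ((s.im - t) / h)) - h * Real.log T / (2 * Real.pi) * ∫ x : ℝ, f x

/-- the Fourier transform `∫ f(x) e^{-iξx} dx` -/
noncomputable def ft (f : ℝ → ℝ) (ξ : ℝ) : ℂ := ∫ x : ℝ, (f x : ℂ) * cexp (-(((ξ * x : ℝ) : ℂ) * I))

/-- the limiting covariance at a common scale -/
noncomputable def cov (f g : ℝ → ℝ) : ℝ :=
  1 / (2 * Real.pi ^ 2) * ∫ ξ in Ioi (0 : ℝ), ξ * (ft f ξ * (starRingEnd ℂ) (ft g ξ)).re

open Classical in
/-- the limiting covariance matrix: different scales are independent -/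
noncomputable def covMatrix {k : ℕ} (f : Fin k → ℝ → ℝ) (h : Fin k → ℝ → ℝ) : Matrix (Fin k) (Fin k) ℝ :=
  Matrix.of fun i j => if h i = h j then cov (f i) (f j) else 0

/-- **Mesoscopic Gaussian field of the zeros, at a random height.** -/
theorem result {k : ℕ} (f : Fin k → ℝ → ℝ) (hf : ∀ j, ContDiff ℝ 2 (f j)) (hs : ∀ j, HasCompactSupport (f j))
    (h : Fin k → ℝ → ℝ) (h0 : ∀ j, Tendsto (h j) atTop (𝓝 0))
    (h1 : ∀ j, Tendsto (fun T => h j T * Real.log T) atTop atTop)
    (hsep : ∀ i j, h i ≠ h j →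
      Tendsto (fun T => h i T / h j T) atTop (𝓝 0) ∨ Tendsto (fun T => h j T / h i T) atTop (𝓝 0)) :
    (covMatrix f h).PosSemidef ∧
    ∀ φ : EuclideanSpace ℝ (Fin k) →ᵇ ℝ,
      Tendsto (fun T : ℝ => 1 / T * ∫ t in T..(2 * T), φ (WithLp.toLp 2 fun j => lin (f j) (h j T) T t)) atTop
        (𝓝 (∫ x, φ x ∂(multivariateGaussian 0 (covMatrix f h)))) := by
  have hh : Pool.Agent.H203.ME.Scales h := ⟨h0, h1, hsep⟩
  have hM : covMatrix f h = Pool.Agent.H203.ME.cM f h := rfl
  refine ⟨by rw [hM]; exact Pool.Agent.H203.ME.FINL.cM_psd Pool.Agent.H203.ME.t_COV hf hs hh, fun φ => ?_⟩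
  rw [hM]
  refine (Pool.Agent.H203.ME.finA Pool.Agent.H203.ME.p_MAIN Pool.Agent.H203.ME.t_ADM Pool.Agent.H203.ME.t_COV
    hf hs hh φ).congr' ?_
  filter_upwards [Pool.Agent.H203.ME.FINL.pos hh] with T hT
  congr 1
  apply intervalIntegral.integral_congr
  intro t _
  have : (Pool.Agent.H203.ME.Xv f (fun j => h j T) T t) = WithLp.toLp 2 fun j => lin (f j) (h j T) T t := by
    unfold Pool.Agent.H203.ME.Xv
    congr 1
    funext j
    exact Pool.Agent.H203.ME.FINL.XF_scale (f j) (hT j) T t
  simp only [this]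

end Pool.Agent.Results.MP_f58427_nt.MesoscopicGaussianField
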