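import Pool.Agent.H203.ME.ALL3

set_option autoImplicit false

/-!
# The pair correlation of the zeros of zeta at all mesoscopic distances (unconditional)

No hypothesis on the zeros is made: `γ`, `γ'` run over the ordinates of all the nontrivial zeros, with multiplicity, as in
Montgomery's conjecture in the form of the problem.  Let `N_T` be the number of zeros with ordinate in `(T, 2T]` and let
`h = h(T)` be a scale with `h → 0` and `h log T → ∞`, so that `a = h N_T / T` (the scale in units of the mean spacing)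
tends to infinity.  For every test function `φ` of class `C⁶` with compact support
`∑_{T < γ ≤ 2T} ∑_{γ'} φ((γ' - γ)/h) = N_T (a ∫ φ + κ(φ)/a + o(1/a))`, `κ(φ) = (1/2π²) ∫_0^∞ ξ Re φ̂(ξ) dξ`,
which is what the pair density `1 - (sin πu / πu)²` together with the diagonal predicts: the term of order `N_T` vanishes
and the next one comes from the mean `-1/(2π²u²)` of the repulsion term.  The second part is the convergence of the
covariances of the smooth linear statistics.
-/

open Complex Filter Topology Set MeasureTheory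

namespace Pool.Agent.Results.MP_f58427_nt.MesoscopicPairCorrelation

/-- the nontrivial zeros of zeta -/
def zeros : Set ℂ := {s : ℂ | riemannZeta s = 0 ∧ 0 < s.re ∧ s.re < 1}

/-- the nontrivial zeros with ordinate in `(T, 2T]` -/
def window (T : ℝ) : Set ℂ := {s : ℂ | s ∈ zeros ∧ T < s.im ∧ s.im ≤ 2 * T}

/-- multiplicity of a zero of zeta -/
noncomputable def mult (s : ℂ) : ℕ := analyticOrderNatAt riemannZeta s

/-- the number of zeros with ordinate in `(T, 2T]`, with multiplicity -/
noncomputable def count (T : ℝ) : ℝ := ∑ᶠ s ∈ window T, (mult s : ℝ)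

/-- the sum of `φ((γ' - γ)/h)` over the pairs of zeros with `T < γ ≤ 2T`, with multiplicity -/
noncomputable def pairSum (φ : ℝ → ℝ) (h T : ℝ) : ℝ :=
  ∑ᶠ s ∈ window T, (mult s : ℝ) * ∑ᶠ s' ∈ zeros, (mult s' : ℝ) * φ ((s'.im - s.im) / h)

/-- the Fourier transform `∫ f(x) e^{-iξx} dx` -/
noncomputable def ft (f : ℝ → ℝ) (ξ : ℝ) : ℂ := ∫ x : ℝ, (f x : ℂ) * cexp (-(((ξ * x : ℝ) : ℂ) * I))

/-- the linear statistic `∑_γ f((γ - t)/h)`, centred by the mean density `log T / 2π` -/
noncomputable def lin (f : ℝ → ℝ) (h T t : ℝ) : ℝ :=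
  (∑ᶠ s ∈ zeros, (mult s : ℝ) * f ((s.im - t) / h)) - h * Real.log T / (2 * Real.pi) * ∫ x : ℝ, f x

/-- **Mesoscopic pair correlation of the zeros of zeta.** -/
theorem result (h : ℝ → ℝ) (h0 : Tendsto h atTop (𝓝 0)) (h1 : Tendsto (fun T => h T * Real.log T) atTop atTop) :
    (∀ φ : ℝ → ℝ, ContDiff ℝ 6 φ → HasCompactSupport φ →
      Tendsto (fun T : ℝ => h T / T * (pairSum φ (h T) T - h T * count T ^ 2 / T * ∫ v : ℝ, φ v)) atTop
        (𝓝 (1 / (2 * Real.pi ^ 2) * ∫ ξ in Ioi (0 : ℝ), ξ * (ft φ ξ).re))) ∧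
    (∀ f g : ℝ → ℝ, ContDiff ℝ 2 f → HasCompactSupport f → ContDiff ℝ 2 g → HasCompactSupport g →
      Tendsto (fun T : ℝ => 1 / T * ∫ t in T..(2 * T), lin f (h T) T t * lin g (h T) T t) atTop
        (𝓝 (1 / (2 * Real.pi ^ 2) * ∫ ξ in Ioi (0 : ℝ), ξ * (ft f ξ * (starRingEnd ℂ) (ft g ξ)).re))) := by
  have hpos : ∀ᶠ T : ℝ in atTop, 0 < h T := by
    filter_upwards [h1.eventually (eventually_gt_atTop 0), eventually_gt_atTop (1 : ℝ)] with T q1 q2
    have h3 := Real.log_pos q2
    by_contra h4
    push Not at h4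
    nlinarith
  constructor
  · intro φ hφ hφs
    refine (Pool.Agent.H203.ME.finD Pool.Agent.H203.ME.p_PCC hφ hφs h0 h1).congr' ?_
    filter_upwards [eventually_ge_atTop (1 : ℝ)] with T hT1
    have hset : window T = H370.zset riemannZeta T (2 * T) := by
      ext s
      exact ⟨fun ⟨⟨a, b, c⟩, d, e⟩ => ⟨b, c, d, e, a⟩, fun ⟨b, c, d, e, a⟩ => ⟨⟨a, b, c⟩, d, e⟩⟩
    have e1 : pairSum φ (h T) T = Pool.Agent.H203.ME.PS φ (h T) T := by
      unfold pairSum
      rw [hset, H370.finsum_Zf H370.good_zeta hT1]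
      rfl
    have e2 : count T = (H370.NN riemannZeta T (2 * T) : ℝ) := by
      unfold count
      rw [hset, H370.finsum_Zf H370.good_zeta hT1, H370.NN_eq H370.good_zeta hT1]
      push_cast
      rfl
    rw [e1, e2]
  · intro f g hf hfs hg hgs
    refine (Pool.Agent.H203.ME.p_SEC f g hf hfs hg hgs h h0 h1).congr' ?_
    filter_upwards [hpos] with T hT
    congr 1
    apply intervalIntegral.integral_congr
    intro t _
    simp only [Pool.Agent.H203.ME.FINL.XF_scale _ hT T t]
    rfl

end Pool.Agent.Results.MP_f58427_nt.MesoscopicPairCorrelation
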