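import Pool.Agent.H479.V.Main

/-!
# The pair correlation conjecture and one-sided bounds for the variance of primes

For `T > 1` and `u < v` let

  `V(T; u, v) = (T / log² T) ∫_{T^u}^{T^v} (ψ(x + x/T) - ψ(x) - x/T)² x⁻² dx`,

the normalised variance of the primes in the intervals `(x, x + x/T]`, `T^u ≤ x ≤ T^v`.
On the Riemann hypothesis the pair correlation conjecture is equivalent to `V(T; u, v) → v - u`
for all `1 ≤ u < v` (Gallagher and Mueller, Goldston and Montgomery, Goldston).

We prove, unconditionally, that the Riemann hypothesis and the pair correlation conjecture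
together are equivalent to the UPPER bound `limsup V(T; u, v) ≤ v - u` for all `1 ≤ u < v`.
The lower bound for the variance is automatic, and so is the Riemann hypothesis.

Idea of the proof.  A bounded variance implies the Riemann hypothesis.  On the Riemann hypothesis
the variance, smoothed over `log x / log T` by `w`, is a sum over pairs of zeros
`∑ ŵ((γ - γ') log T / 2π) ph(max(γ, γ') / T)` up to `o(1)`.  Take for `w` a smooth positive definite
approximation of the tent `max 0 (1 - |α|/b)`.  The sum is at least its diagonal part, which is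
`b + o(1)`, and the part of `w` in `(-1, 1)` is evaluated by Montgomery's theorem.  This gives
`∫_1^b S(t) dt ≥ -1/6 - o(1)` for `S(t) = V(T; 1, t) - (t - 1)`.  By the upper bound `S` is
nonincreasing up to `o(1)`; a negative value would persist, which is impossible for large `b`.
So `V(T; u, v) → v - u`, hence the sums over pairs converge for all `w`; a Tauberian argument
replaces the weight by the sharp cutoff `0 < γ, γ' ≤ T`, and the test functions of all bandwidths
determine the pair correlation.

The explicit formula, the mean square of the sum over zeros, the Tauberian theorem for the weight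
and the step from bounded variance to the Riemann hypothesis use modules of the starting library
(project PV of run 63374d34, Weil explicit formula of run f72693b1).
-/

open MeasureTheory Filter Topology

namespace Pool.Agent.Results.MP_f58427_nt.OneSidedPrimeVariance

/-- the nontrivial zeros of `ζ` -/
def zeros : Set ℂ := {s : ℂ | riemannZeta s = 0 ∧ 0 < s.re ∧ s.re < 1}

/-- the multiplicity of a zero of `ζ` -/
noncomputable def mult (s : ℂ) : ℕ := analyticOrderNatAt riemannZeta s

/-- `N*(T, a)`: the number of ordered pairs `(γ, γ')` of ordinates of nontrivial zeros, counted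
with multiplicity, with `0 < γ ≤ T` and `0 < γ - γ' ≤ 2πa / log T` -/
noncomputable def Nstar (T a : ℝ) : ℕ :=
  ∑ᶠ s ∈ {s : ℂ | s ∈ zeros ∧ 0 < s.im ∧ s.im ≤ T}, ∑ᶠ s' ∈ {s' : ℂ | s' ∈ zeros ∧
    0 < s.im - s'.im ∧ s.im - s'.im ≤ 2 * Real.pi * a / Real.log T}, mult s * mult s'

/-- Montgomery's pair correlation conjecture (Q1): for every fixed `a > 0`
`N*(T, a) = (1 / 2π ∫_0^a (1 - (sin πu / πu)²) du + o(1)) T log T` -/
def PairCorrelation : Prop := ∀ a : ℝ, 0 < a →
  Tendsto (fun T => (Nstar T a : ℝ) / (T * Real.log T)) atTop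
    (𝓝 (1 / (2 * Real.pi) *
      ∫ u in (0 : ℝ)..a, (1 - (Real.sin (Real.pi * u) / (Real.pi * u)) ^ 2)))

/-- the normalised variance of the primes in the intervals `(x, x + x/T]`, `T^u ≤ x ≤ T^v`:
`(T / log² T) ∫_{T^u}^{T^v} (ψ(x + x/T) - ψ(x) - x/T)² x⁻² dx` -/
noncomputable def V (T u v : ℝ) : ℝ :=
  T / Real.log T ^ 2 * ∫ x in (T ^ u)..(T ^ v),
    (Chebyshev.psi (x + x / T) - Chebyshev.psi x - x / T) ^ 2 / x ^ 2

/-- the upper bound with the right constant: `limsup V(T; u, v) ≤ v - u` for all `1 ≤ u < v` -/
def UpperBound : Prop := ∀ u v : ℝ, 1 ≤ u → u < v → ∀ ε : ℝ, 0 < ε →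
  ∀ᶠ T in atTop, V T u v ≤ v - u + ε

/-- the asymptotic formula: `V(T; u, v) → v - u` for all `1 ≤ u < v` -/
def Asymptotic : Prop := ∀ u v : ℝ, 1 ≤ u → u < v →
  Tendsto (fun T => V T u v) atTop (𝓝 (v - u))

/-- **The Riemann hypothesis and the pair correlation conjecture together are equivalent to the
upper bound for the variance of primes in short intervals** (and to the asymptotic formula). -/
theorem result :
    (RiemannHypothesis ∧ PairCorrelation ↔ UpperBound) ∧ (UpperBound ↔ Asymptotic) := by
  have h1 : UpperBound → Asymptotic := fun h => H479.V.TS_of_OS h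
  have h2 : Asymptotic → UpperBound := fun h => H479.V.OS_of_TS h
  refine ⟨⟨fun h => ?_, fun h => ?_⟩, h1, h2⟩
  · obtain ⟨RH, hP⟩ := h
    exact h2 (H479.V.TS_of_Aa RH ((H479.V.Aa_iff RH).1 hP))
  · have RH := H479.V.RH_of_OS h
    exact ⟨RH, (H479.V.Aa_iff RH).2 (H479.V.Aa_of_OS h)⟩

end Pool.Agent.Results.MP_f58427_nt.OneSidedPrimeVariance
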